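import Mathlib

/-!
# MP_302605_an, Q1: optimal anisotropies exist in every dimension
-/

open Set MeasureTheory Metric
open scoped ENNReal RealInnerProductSpace Topology Pointwise

namespace Pool.Agent.Results.MP_302605_an.MinimizersExist

/-- Euclidean space. -/
abbrev X (N : ℕ) := EuclideanSpace ℝ (Fin N)

/-- The class `𝒦_N`: non-empty, open, bounded, convex, centrally symmetric sets. -/
def IsAniso {N : ℕ} (K : Set (X N)) : Prop :=
  K.Nonempty ∧ IsOpen K ∧ Bornology.IsBounded K ∧ Convex ℝ K ∧ ∀ x ∈ K, -x ∈ K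

/-- The polar set `K°`. -/
def polarSet {N : ℕ} (K : Set (X N)) : Set (X N) := {x | ∀ y ∈ K, ⟪x, y⟫ < 1}

/-- The divergence of a vector field. -/
noncomputable def divg {N : ℕ} (φ : X N → X N) (x : X N) : ℝ :=
  ∑ i, (fderiv ℝ φ x (EuclideanSpace.single i 1)) i

/-- The anisotropic perimeter `P_K(E) = sup {∫_E div φ}` over the compactly supported `C¹` fields
`φ` with values in the closure of `K`. -/
noncomputable def perim {N : ℕ} (K E : Set (X N)) : ℝ≥0∞ :=
  ⨆ (φ : X N → X N) (_ : ContDiff ℝ 1 φ ∧ HasCompactSupport φ ∧ ∀ p, φ p ∈ closure K),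
    ENNReal.ofReal (∫ p in E, divg φ p)

/-- The `K`-Cheeger constant `h_K(Ω)`. -/
noncomputable def cheeger {N : ℕ} (K Ω : Set (X N)) : ℝ≥0∞ :=
  ⨅ (E : Set (X N)) (_ : MeasurableSet E ∧ E ⊆ Ω ∧ volume E ≠ 0), perim K E / volume E

/-- The functional `J_Ω[K] = h_K(Ω) |K°|^{1/N}`. -/
noncomputable def J {N : ℕ} (Ω K : Set (X N)) : ℝ≥0∞ :=
  cheeger K Ω * (volume (polarSet K)) ^ (1 / (N : ℝ))

variable {N : ℕ}

theorem zero_mem {K : Set (X N)} (hK : IsAniso K) : (0 : X N) ∈ K := by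
  obtain ⟨⟨x, hx⟩, -, -, hc, hs⟩ := hK
  have := hc hx (hs x hx) (by norm_num : (0:ℝ) ≤ 1 / 2) (by norm_num : (0:ℝ) ≤ 1 / 2)
    (by norm_num)
  simpa using this

theorem smul_mem' {K : Set (X N)} (hK : IsAniso K) {y : X N} (hy : y ∈ K) {t : ℝ} (ht : |t| ≤ 1) :
    t • y ∈ K := by
  obtain ⟨-, -, -, hc, hs⟩ := hK
  have h1 := abs_le.1 ht
  have := hc hy (hs y hy) (by linarith : (0:ℝ) ≤ (1 + t) / 2) (by linarith : (0:ℝ) ≤ (1 - t) / 2)
    (by ring)
  have e : ((1 + t) / 2) • y + ((1 - t) / 2) • -y = t • y := by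
    rw [smul_neg, ← sub_eq_add_neg, ← sub_smul]
    congr 1
    ring
  rwa [e] at this

/-! ### Monotonicity and scaling -/

theorem divg_smul (a : ℝ) {φ : X N → X N} (hφ : ContDiff ℝ 1 φ) (x : X N) :
    divg (fun p => a • φ p) x = a * divg φ x := by
  unfold divg
  have hd : HasFDerivAt (fun p => a • φ p) (a • fderiv ℝ φ x) x :=
    ((hφ.differentiable one_ne_zero) x).hasFDerivAt.const_smul a
  rw [hd.fderiv, Finset.mul_sum]
  rfl

theorem perim_ge {K K' E : Set (X N)} {a : ℝ} (ha : 0 < a) (h : ∀ x ∈ K, a • x ∈ K') :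
    ENNReal.ofReal a * perim K E ≤ perim K' E := by
  unfold perim
  rw [ENNReal.mul_iSup]
  refine iSup_le fun φ => ?_
  rw [ENNReal.mul_iSup]
  refine iSup_le fun hφ => ?_
  obtain ⟨h1, h2, h3⟩ := hφ
  rw [← ENNReal.ofReal_mul ha.le, ← integral_const_mul]
  have e : ∫ p in E, a * divg φ p = ∫ p in E, divg (fun p => a • φ p) p := by
    congr 1
    funext p
    rw [divg_smul a h1]
  rw [e]
  refine le_iSup₂_of_le (fun p => a • φ p) ⟨h1.const_smul a, ?_, ?_⟩ (le_refl _)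
  · exact h2.comp_left (g := fun v => a • v) (smul_zero a)
  · intro p
    have hcont : Continuous (fun v : X N => a • v) := continuous_const_smul a
    exact map_mem_closure hcont (h3 p) h

theorem cheeger_ge {K K' Ω : Set (X N)} {a : ℝ} (ha : 0 < a) (h : ∀ x ∈ K, a • x ∈ K') :
    ENNReal.ofReal a * cheeger K Ω ≤ cheeger K' Ω := by
  refine le_iInf₂ fun E hE => ?_
  have h1 : cheeger K Ω ≤ perim K E / volume E := iInf₂_le E hE
  calc ENNReal.ofReal a * cheeger K Ω ≤ ENNReal.ofReal a * (perim K E / volume E) :=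
        mul_le_mul_right h1 _
    _ = (ENNReal.ofReal a * perim K E) / volume E := by rw [mul_div_assoc]
    _ ≤ perim K' E / volume E := ENNReal.div_le_div_right (perim_ge ha h) _

theorem polar_ge {K K' : Set (X N)} {b : ℝ} (hb : 0 < b) (h : ∀ x ∈ K', b⁻¹ • x ∈ K) :
    ENNReal.ofReal (b⁻¹ ^ N) * volume (polarSet K) ≤ volume (polarSet K') := by
  have h1 : b⁻¹ • polarSet K ⊆ polarSet K' := by
    rintro _ ⟨x, hx, rfl⟩ y hy
    have := hx _ (h y hy)
    rw [inner_smul_right] at this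
    simp only
    rwa [real_inner_smul_left]
  have h2 := Measure.addHaar_smul (volume : Measure (X N)) b⁻¹ (polarSet K)
  rw [finrank_euclideanSpace_fin, abs_of_pos (by positivity)] at h2
  rw [← h2]
  exact measure_mono h1

/-- Comparison of `J` for comparable anisotropies. -/
theorem J_ge (hN : 0 < N) {Ω K K' : Set (X N)} {a b : ℝ} (ha : 0 < a) (hb : 0 < b)
    (h1 : ∀ x ∈ K, a • x ∈ K') (h2 : ∀ x ∈ K', b⁻¹ • x ∈ K) :
    ENNReal.ofReal (a / b) * J Ω K ≤ J Ω K' := by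
  have hN' : (0:ℝ) < N := by exact_mod_cast hN
  have h3 := cheeger_ge (Ω := Ω) ha h1
  have h4 := polar_ge hb h2
  have h5 := ENNReal.rpow_le_rpow h4 (by positivity : (0:ℝ) ≤ 1 / (N : ℝ))
  rw [ENNReal.mul_rpow_of_nonneg _ _ (by positivity)] at h5
  have h6 : ENNReal.ofReal (b⁻¹ ^ N) ^ (1 / (N : ℝ)) = ENNReal.ofReal b⁻¹ := by
    rw [ENNReal.ofReal_rpow_of_nonneg (by positivity) (by positivity)]
    congr 1
    rw [one_div, Real.pow_rpow_inv_natCast (by positivity) hN.ne']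
  rw [h6] at h5
  unfold J
  have h7 := mul_le_mul' h3 h5
  refine le_trans (le_of_eq ?_) h7
  rw [div_eq_mul_inv, ENNReal.ofReal_mul ha.le]
  ring

/-! ### Coercivity -/

theorem field {K : Set (X N)} (hK : IsAniso K) {Ω E : Set (X N)} {D : ℝ} (hD : 0 < D)
    (hΩ : Ω ⊆ ball 0 D) (hE : MeasurableSet E) (hEΩ : E ⊆ Ω) {y : X N} (hy : y ∈ K) {s : ℝ}
    (hs0 : 0 < s) (hs1 : s < 1) :
    ENNReal.ofReal (s * (‖y‖ / D) * (volume E).toReal) ≤ perim K E := by
  rcases eq_or_ne y 0 with rfl | hy0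
  · simp
  have hn : 0 < ‖y‖ := norm_pos_iff.2 hy0
  have hlt : D < D / s := by rw [lt_div_iff₀ hs0]; nlinarith
  let χ : ContDiffBump (0 : X N) := ⟨D, D / s, hD, hlt⟩
  set c : ℝ := s / (‖y‖ * D) with hc
  have hc0 : 0 < c := by positivity
  set φ : X N → X N := fun x => (c * χ x * ⟪y, x⟫) • y with hφ
  have hφs : ContDiff ℝ 1 φ := by
    have h1 : ContDiff ℝ 1 (fun x : X N => c * χ x) := contDiff_const.mul χ.contDiff
    have h2 : ContDiff ℝ 1 (fun x : X N => ⟪y, x⟫) := contDiff_const.inner ℝ contDiff_id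
    have h3 : ContDiff ℝ 1 (fun x : X N => c * χ x * ⟪y, x⟫) := h1.mul h2
    exact h3.smul (contDiff_const (c := y))
  have hχ0 : ∀ x : X N, D / s ≤ ‖x‖ → χ x = 0 := by
    intro x hx
    apply χ.zero_of_le_dist
    rw [dist_zero_right]
    exact hx
  have hφc : HasCompactSupport φ := by
    apply HasCompactSupport.intro (isCompact_closedBall (0 : X N) (D / s))
    intro x hx
    rw [mem_closedBall, dist_zero_right, not_le] at hx
    simp only [hφ]
    rw [hχ0 x hx.le]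
    simp
  have hφK : ∀ x, φ x ∈ closure K := by
    intro x
    apply subset_closure
    apply smul_mem' hK hy
    rcases le_or_gt (D / s) ‖x‖ with h | h
    · rw [hχ0 x h]; simp
    · rw [abs_mul, abs_mul, abs_of_pos hc0, abs_of_nonneg χ.nonneg]
      have h1 : |⟪y, x⟫| ≤ ‖y‖ * ‖x‖ := abs_real_inner_le_norm y x
      have h2 : χ x ≤ 1 := χ.le_one
      have h3 : ‖y‖ * ‖x‖ ≤ ‖y‖ * (D / s) := mul_le_mul_of_nonneg_left h.le hn.le
      calc c * χ x * |⟪y, x⟫| ≤ c * 1 * (‖y‖ * (D / s)) := by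
            apply mul_le_mul (mul_le_mul_of_nonneg_left h2 hc0.le) (h1.trans h3) (abs_nonneg _)
            positivity
        _ = 1 := by rw [hc]; field_simp
  have hdiv : ∀ x ∈ E, divg φ x = s * (‖y‖ / D) := by
    intro x hx
    have hxb : ball (0 : X N) D ∈ 𝓝 x := isOpen_ball.mem_nhds (hΩ (hEΩ hx))
    have hev : φ =ᶠ[𝓝 x] fun z => (c * ⟪y, z⟫) • y := by
      filter_upwards [hxb] with z hz
      simp only [hφ]
      rw [χ.one_of_mem_closedBall (ball_subset_closedBall hz), mul_one]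
    have hd : HasFDerivAt (fun z : X N => (c * ⟪y, z⟫) • y)
        ((c • innerSL ℝ y).smulRight y) x := by
      have h1 : HasFDerivAt (fun z : X N => c * ⟪y, z⟫) (c • innerSL ℝ y) x :=
        (innerSL ℝ y).hasFDerivAt.const_mul c
      exact h1.smul_const y
    unfold divg
    rw [hev.fderiv_eq, hd.fderiv]
    have e : ∀ i : Fin N, ((c • innerSL ℝ y).smulRight y) (EuclideanSpace.single i (1:ℝ)) i =
        c * (y i) ^ 2 := by
      intro i
      simp only [ContinuousLinearMap.smulRight_apply, smul_apply,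
        innerSL_apply_apply, PiLp.smul_apply, smul_eq_mul, EuclideanSpace.inner_single_right]
      simp
      ring
    simp only [e]
    rw [← Finset.mul_sum, ← EuclideanSpace.real_norm_sq_eq, hc]
    field_simp
  have hint : ∫ x in E, divg φ x = s * (‖y‖ / D) * (volume E).toReal := by
    rw [setIntegral_congr_fun hE hdiv, setIntegral_const, smul_eq_mul, mul_comm]
    rfl
  rw [← hint]
  exact le_iSup₂_of_le φ ⟨hφs, hφc, hφK⟩ (le_refl _)

theorem cheeger_lower {K : Set (X N)} (hK : IsAniso K) {Ω : Set (X N)} {D : ℝ} (hD : 0 < D)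
    (hΩ : Ω ⊆ ball 0 D) {y : X N} (hy : y ∈ K) : ENNReal.ofReal (‖y‖ / D) ≤ cheeger K Ω := by
  refine le_iInf₂ fun E hE => ?_
  obtain ⟨hE, hEΩ, hE0⟩ := hE
  have hfin : volume E ≠ ⊤ :=
    ne_top_of_le_ne_top measure_ball_lt_top.ne (measure_mono (hEΩ.trans hΩ))
  rw [ENNReal.le_div_iff_mul_le (Or.inl hE0) (Or.inl hfin)]
  have h2 : ENNReal.ofReal (‖y‖ / D) * volume E =
      ENNReal.ofReal (1 * (‖y‖ / D) * (volume E).toReal) := by
    rw [one_mul, ENNReal.ofReal_mul (by positivity), ENNReal.ofReal_toReal hfin]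
  rw [h2]
  have ht : Filter.Tendsto (fun s : ℝ => ENNReal.ofReal (s * (‖y‖ / D) * (volume E).toReal))
      (𝓝[<] 1) (𝓝 (ENNReal.ofReal (1 * (‖y‖ / D) * (volume E).toReal))) := by
    apply ENNReal.tendsto_ofReal
    apply Filter.Tendsto.mono_left _ nhdsWithin_le_nhds
    exact ((continuous_id.mul continuous_const).mul continuous_const).tendsto 1
  refine le_of_tendsto ht ?_
  have h3 : Ioo (0:ℝ) 1 ∈ 𝓝[<] (1:ℝ) := Ioo_mem_nhdsLT one_pos
  filter_upwards [h3] with s hs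
  exact field hK hD hΩ hE hEΩ hy hs.1 hs.2

/-- If `K` lies in the unit ball but misses `z`, then the polar set is large. -/
theorem polar_large {K : Set (X N)} (hK : IsAniso K) (hK1 : K ⊆ closedBall 0 1) {z : X N}
    (hz : z ∉ K) :
    ENNReal.ofReal (1 / (2 * ‖z‖)) * volume (ball (0 : X N) (1 / 2)) ≤ volume (polarSet K) := by
  have h0 := zero_mem hK
  have hz0 : z ≠ 0 := fun h => hz (h ▸ h0)
  have hzn : 0 < ‖z‖ := norm_pos_iff.2 hz0
  -- a point of the polar set of norm at least `1/‖z‖`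
  obtain ⟨x, hx1, hx2⟩ : ∃ x : X N, (∀ y ∈ K, ⟪x, y⟫ < 1) ∧ 1 / ‖z‖ ≤ ‖x‖ := by
    obtain ⟨f, hf⟩ := geometric_hahn_banach_open_point hK.2.2.2.1 hK.2.1 hz
    have hfz : 0 < f z := by have := hf 0 h0; rwa [map_zero] at this
    set v := (InnerProductSpace.toDual ℝ (X N)).symm f with hv
    have hvf : ∀ w, ⟪v, w⟫ = f w := fun w => InnerProductSpace.toDual_symm_apply
    refine ⟨(f z)⁻¹ • v, ?_, ?_⟩
    · intro y hy
      rw [real_inner_smul_left, hvf, inv_mul_lt_one₀ hfz]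
      exact hf y hy
    · have h1 : ⟪(f z)⁻¹ • v, z⟫ = 1 := by
        rw [real_inner_smul_left, hvf, inv_mul_cancel₀ hfz.ne']
      rw [div_le_iff₀ hzn, ← h1]
      exact real_inner_le_norm _ _
  set L := ‖x‖ with hL
  have hLpos : 0 < L := lt_of_lt_of_le (by positivity) hx2
  set m := ⌊L / 2⌋₊ with hm
  have hball : ∀ k ∈ Finset.range (m + 1), ball (((k : ℝ) / L) • x) (1 / 2) ⊆ polarSet K := by
    intro k hk w hw y hy
    have hkm : k ≤ m := Nat.lt_succ_iff.1 (Finset.mem_range.1 hk)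
    have hkL : (k : ℝ) ≤ L / 2 := (Nat.cast_le.2 hkm).trans (Nat.floor_le (by positivity))
    have ht0 : 0 ≤ (k : ℝ) / L := by positivity
    have ht1 : (k : ℝ) / L ≤ 1 / 2 := by
      rw [div_le_iff₀ hLpos]; linarith
    have hy1 : ‖y‖ ≤ 1 := by simpa using hK1 hy
    have e : ⟪w, y⟫ = (k : ℝ) / L * ⟪x, y⟫ + ⟪w - ((k : ℝ) / L) • x, y⟫ := by
      rw [inner_sub_left, real_inner_smul_left]; ring
    have h1 : ⟪w - ((k : ℝ) / L) • x, y⟫ ≤ ‖w - ((k : ℝ) / L) • x‖ * ‖y‖ := real_inner_le_norm _ _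
    have h2 : ‖w - ((k : ℝ) / L) • x‖ < 1 / 2 := by rwa [mem_ball, dist_eq_norm] at hw
    have h3 : (k : ℝ) / L * ⟪x, y⟫ ≤ 1 / 2 := by
      have := (hx1 y hy).le
      nlinarith
    rw [e]
    nlinarith [norm_nonneg y, norm_nonneg (w - ((k : ℝ) / L) • x)]
  have hdisj : Set.PairwiseDisjoint (↑(Finset.range (m + 1)))
      (fun k : ℕ => ball (((k : ℝ) / L) • x) (1 / 2)) := by
    intro k _ l _ hkl
    apply ball_disjoint_ball
    rw [dist_eq_norm, ← sub_smul, norm_smul, ← sub_div, Real.norm_eq_abs, abs_div,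
      abs_of_pos hLpos, ← hL, div_mul_cancel₀ _ hLpos.ne']
    have : (1:ℝ) ≤ |(k:ℝ) - l| := by
      have h1 : (1:ℤ) ≤ |(k:ℤ) - l| := Int.one_le_abs (by omega)
      exact_mod_cast h1
    linarith
  have hvol : volume (⋃ k ∈ Finset.range (m + 1), ball (((k : ℝ) / L) • x) (1 / 2)) =
      ∑ k ∈ Finset.range (m + 1), volume (ball (0 : X N) (1 / 2)) := by
    rw [measure_biUnion_finset hdisj (fun k _ => measurableSet_ball)]
    apply Finset.sum_congr rfl
    intro k _
    exact Measure.addHaar_ball_center _ _ _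
  refine le_trans ?_ (measure_mono (iUnion₂_subset hball))
  rw [hvol, Finset.sum_const, Finset.card_range, nsmul_eq_mul]
  apply mul_le_mul_left
  have h1 : 1 / (2 * ‖z‖) ≤ ((m + 1 : ℕ) : ℝ) := by
    have h2 : L / 2 < m + 1 := Nat.lt_floor_add_one _
    push_cast
    have h3 : 1 / (2 * ‖z‖) = (1 / ‖z‖) / 2 := by field_simp
    rw [h3]
    linarith
  calc ENNReal.ofReal (1 / (2 * ‖z‖)) ≤ ENNReal.ofReal ((m + 1 : ℕ) : ℝ) :=
        ENNReal.ofReal_le_ofReal h1
    _ = ((m + 1 : ℕ) : ℝ≥0∞) := ENNReal.ofReal_natCast _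

/-- Coercivity: a bound on `J` gives an inscribed ball. -/
theorem coercive (hN : 0 < N) {Ω : Set (X N)} {D : ℝ} (hD : 0 < D) (hΩ : Ω ⊆ ball 0 D) {C : ℝ≥0∞}
    (hC : C ≠ ⊤) : ∃ r : ℝ, 0 < r ∧ r ≤ 1 ∧ ∀ K : Set (X N), IsAniso K → K ⊆ closedBall 0 1 →
      (∃ y ∈ K, 1 / 2 ≤ ‖y‖) → J Ω K ≤ C → ball 0 r ⊆ K := by
  have hN' : (0:ℝ) < N := by exact_mod_cast hN
  set κ := (volume (ball (0 : X N) (1 / 2))).toReal with hκ
  have hκfin : volume (ball (0 : X N) (1 / 2)) ≠ ⊤ := measure_ball_lt_top.ne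
  have hκ0 : 0 < κ := ENNReal.toReal_pos (measure_ball_pos _ _ (by norm_num)).ne' hκfin
  set c := C.toReal + 1 with hc
  have hc0 : 0 < c := by positivity
  have hCc : C ≤ ENNReal.ofReal c := by
    rw [← ENNReal.ofReal_toReal hC]
    apply ENNReal.ofReal_le_ofReal
    linarith
  set A := (2 * D * c) ^ N with hA
  have hA0 : 0 < A := by positivity
  refine ⟨min 1 (κ / (2 * A)), lt_min one_pos (by positivity), min_le_left _ _, ?_⟩
  intro K hK hK1 ⟨y, hy, hy1⟩ hJ z hz
  by_contra hzK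
  rw [mem_ball, dist_zero_right, lt_min_iff] at hz
  have h0 := zero_mem hK
  have hz0 : z ≠ 0 := fun h => hzK (h ▸ h0)
  have hzn : 0 < ‖z‖ := norm_pos_iff.2 hz0
  have h1 := cheeger_lower hK hD hΩ hy
  have h2 := polar_large hK hK1 hzK
  have h3 : ENNReal.ofReal (1 / (2 * D)) ≤ cheeger K Ω := by
    refine le_trans (ENNReal.ofReal_le_ofReal ?_) h1
    rw [div_le_div_iff₀ (by positivity) hD]
    nlinarith
  rw [← ENNReal.ofReal_toReal hκfin, ← hκ, ← ENNReal.ofReal_mul (by positivity)] at h2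
  have h4 := ENNReal.rpow_le_rpow h2 (by positivity : (0:ℝ) ≤ 1 / (N : ℝ))
  rw [ENNReal.ofReal_rpow_of_nonneg (by positivity) (by positivity)] at h4
  have h5 := mul_le_mul' h3 h4
  rw [← ENNReal.ofReal_mul (by positivity)] at h5
  have h6 : ENNReal.ofReal (1 / (2 * D) * (1 / (2 * ‖z‖) * κ) ^ (1 / (N:ℝ))) ≤
      ENNReal.ofReal c := h5.trans (hJ.trans hCc)
  rw [ENNReal.ofReal_le_ofReal_iff hc0.le] at h6
  have h7 : (1 / (2 * ‖z‖) * κ) ^ (1 / (N:ℝ)) ≤ 2 * D * c := by
    rw [one_div_mul_eq_div, div_le_iff₀ (by positivity)] at h6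
    linarith
  have h8 : 1 / (2 * ‖z‖) * κ ≤ A := by
    have h9 := pow_le_pow_left₀ (by positivity) h7 N
    rw [one_div (N:ℝ), Real.rpow_inv_natCast_pow (by positivity) hN.ne'] at h9
    exact h9
  have h10 : κ ≤ 2 * A * ‖z‖ := by
    rw [one_div_mul_eq_div, div_le_iff₀ (by positivity)] at h8
    linarith
  have h11 := hz.2
  rw [lt_div_iff₀ (by positivity)] at h11
  linarith

/-! ### Compactness -/

/-- The gauges of the sets between the ball of radius `r` and the unit ball. -/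
def Gset (N : ℕ) (r : ℝ) : Set (X N → ℝ) :=
  {g | (∀ x y, g (x + y) ≤ g x + g y) ∧ (∀ (t : ℝ) x, g (t • x) = |t| * g x) ∧
    ∀ x, ‖x‖ ≤ g x ∧ g x ≤ ‖x‖ / r}

theorem Gset_compact (r : ℝ) : IsCompact (Gset N r) := by
  have h1 : IsCompact (Set.pi univ (fun x : X N => Icc ‖x‖ (‖x‖ / r))) :=
    isCompact_univ_pi fun x => isCompact_Icc
  apply h1.of_isClosed_subset
  · have e : Gset N r = (⋂ (x : X N) (y : X N), {g : X N → ℝ | g (x + y) ≤ g x + g y}) ∩
        ((⋂ (t : ℝ) (x : X N), {g : X N → ℝ | g (t • x) = |t| * g x}) ∩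
        ⋂ (x : X N), {g : X N → ℝ | ‖x‖ ≤ g x ∧ g x ≤ ‖x‖ / r}) := by
      ext g
      simp only [Gset, mem_inter_iff, mem_iInter]
      rfl
    rw [e]
    refine IsClosed.inter ?_ (IsClosed.inter ?_ ?_)
    · refine isClosed_iInter fun x => isClosed_iInter fun y => ?_
      exact isClosed_le (by fun_prop) (by fun_prop)
    · refine isClosed_iInter fun t => isClosed_iInter fun x => ?_
      exact isClosed_eq (by fun_prop) (by fun_prop)
    · refine isClosed_iInter fun x => ?_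
      exact (isClosed_le continuous_const (continuous_apply _)).inter
        (isClosed_le (continuous_apply _) continuous_const)
  · intro g hg x _
    exact hg.2.2 x

theorem G_lip {r : ℝ} {g : X N → ℝ} (hg : g ∈ Gset N r) (x y : X N) :
    |g x - g y| ≤ ‖x - y‖ / r := by
  have key : ∀ x y : X N, g x - g y ≤ ‖x - y‖ / r := by
    intro x y
    have h1 := hg.1 (x - y) y
    rw [sub_add_cancel] at h1
    have h2 := (hg.2.2 (x - y)).2
    linarith
  rw [abs_le]
  constructor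
  · have := key y x
    rw [norm_sub_rev] at this
    linarith
  · exact key x y

theorem G_zero {r : ℝ} {g : X N → ℝ} (hg : g ∈ Gset N r) : g 0 = 0 := by
  have := hg.2.1 0 0
  simpa using this

theorem G_aniso {r : ℝ} (hr : 0 < r) {g : X N → ℝ} (hg : g ∈ Gset N r) :
    IsAniso {x | g x < 1} := by
  have hcont : Continuous g := by
    rw [Metric.continuous_iff]
    intro y ε hε
    refine ⟨ε * r, by positivity, fun x hx => ?_⟩
    rw [Real.dist_eq]
    refine (G_lip hg x y).trans_lt ?_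
    rw [div_lt_iff₀ hr, ← dist_eq_norm]
    exact hx
  refine ⟨⟨0, ?_⟩, isOpen_lt hcont continuous_const, ?_, ?_, ?_⟩
  · change g 0 < 1
    rw [G_zero hg]; exact one_pos
  · apply (isBounded_ball (x := (0 : X N)) (r := 1)).subset
    intro x hx
    have hx : g x < 1 := hx
    rw [mem_ball, dist_zero_right]
    exact (hg.2.2 x).1.trans_lt hx
  · intro x hx y hy a b ha hb hab
    have hx : g x < 1 := hx
    have hy : g y < 1 := hy
    change g (a • x + b • y) < 1
    have h1 := hg.1 (a • x) (b • y)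
    rw [hg.2.1, hg.2.1, abs_of_nonneg ha, abs_of_nonneg hb] at h1
    refine h1.trans_lt ?_
    rcases ha.eq_or_lt with h | h
    · subst h
      have : b = 1 := by linarith
      subst this; linarith
    · nlinarith
  · intro x hx
    have hx : g x < 1 := hx
    change g (-x) < 1
    have := hg.2.1 (-1) x
    rw [neg_one_smul, abs_neg, abs_one, one_mul] at this
    rwa [this]

/-- Pointwise closeness implies comparability. -/
theorem G_close {r : ℝ} (hr : 0 < r) {g : X N → ℝ} (hg : g ∈ Gset N r) {ε : ℝ} (hε : 0 < ε) :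
    ∀ᶠ g' in 𝓝[Gset N r] g, ∀ x, (1 - ε) * g x ≤ g' x ∧ g' x ≤ (1 + ε) * g x := by
  -- a finite net of the sphere
  obtain ⟨t, ht, hcov⟩ := (isCompact_sphere (0 : X N) 1).elim_finite_subcover_image
    (b := sphere (0 : X N) 1) (c := fun y => ball y (ε * r / 4)) (fun _ _ => isOpen_ball)
    (fun x hx => mem_iUnion₂.2 ⟨x, hx, mem_ball_self (by positivity)⟩)
  have htf := hcov.1
  have hc := hcov.2
  have h1 : ∀ᶠ g' in 𝓝 g, ∀ y ∈ t, |g' y - g y| < ε / 2 := by
    rw [Filter.eventually_all_finite htf]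
    intro y _
    have h2 : Filter.Tendsto (fun g' : X N → ℝ => g' y) (𝓝 g) (𝓝 (g y)) :=
      (continuous_apply y).tendsto g
    have h3 := h2.eventually (Metric.ball_mem_nhds (g y) (by positivity : 0 < ε / 2))
    filter_upwards [h3] with g' hg'
    rwa [Real.dist_eq] at hg'
  filter_upwards [nhdsWithin_le_nhds h1, self_mem_nhdsWithin] with g' hg' hG'
  have hsph : ∀ x : X N, ‖x‖ = 1 → |g' x - g x| ≤ ε := by
    intro x hx
    have hx' : x ∈ sphere (0 : X N) 1 := by simpa using hx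
    obtain ⟨y, hy, hxy⟩ := mem_iUnion₂.1 (hc hx')
    rw [mem_ball, dist_eq_norm] at hxy
    have a1 := G_lip hg x y
    have a2 := G_lip hG' x y
    have a3 := hg' y hy
    have a4 : ‖x - y‖ / r ≤ ε / 4 := by
      rw [div_le_iff₀ hr]; linarith
    rw [abs_le] at a1 a2 ⊢
    rw [abs_lt] at a3
    constructor <;> linarith [a1.1, a1.2, a2.1, a2.2, a3.1, a3.2]
  intro x
  rcases eq_or_ne x 0 with rfl | hx
  · rw [G_zero hg, G_zero hG']; simp
  · have hn : 0 < ‖x‖ := norm_pos_iff.2 hx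
    have hx1 : x = ‖x‖ • (‖x‖⁻¹ • x) := by
      rw [smul_smul, mul_inv_cancel₀ hn.ne', one_smul]
    set u := ‖x‖⁻¹ • x with hu
    have hu1 : ‖u‖ = 1 := by
      rw [hu, norm_smul, norm_inv, norm_norm, inv_mul_cancel₀ hn.ne']
    have h2 := abs_le.1 (hsph u hu1)
    have h3 : 1 ≤ g u := by
      have := (hg.2.2 u).1
      rwa [hu1] at this
    rw [hx1, hg.2.1, hG'.2.1, abs_norm]
    constructor
    · have : (1 - ε) * g u ≤ g' u := by nlinarith [h2.1]
      nlinarith
    · have : g' u ≤ (1 + ε) * g u := by nlinarith [h2.2]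
      nlinarith

theorem lsc (hN : 0 < N) (Ω : Set (X N)) {r : ℝ} (hr : 0 < r) :
    LowerSemicontinuousOn (fun g : X N → ℝ => J Ω {x | g x < 1}) (Gset N r) := by
  intro g hg y hy
  -- choose ε
  have ht : Filter.Tendsto (fun ε : ℝ => ENNReal.ofReal ((1 + ε)⁻¹ / (1 - ε)⁻¹) *
      J Ω {x | g x < 1}) (𝓝[>] 0) (𝓝 (1 * J Ω {x | g x < 1})) := by
    apply ENNReal.Tendsto.mul_const _ (Or.inl one_ne_zero)
    rw [← ENNReal.ofReal_one]
    apply ENNReal.tendsto_ofReal
    apply Filter.Tendsto.mono_left _ nhdsWithin_le_nhds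
    have hcont : ContinuousAt (fun ε : ℝ => (1 + ε)⁻¹ / (1 - ε)⁻¹) 0 := by
      apply ContinuousAt.div
      · exact (continuousAt_const.add continuousAt_id).inv₀ (by simp)
      · exact (continuousAt_const.sub continuousAt_id).inv₀ (by simp)
      · simp
    have := hcont.tendsto
    simpa using this
  rw [one_mul] at ht
  have h1 := (ht.eventually (lt_mem_nhds hy)).and (Ioo_mem_nhdsGT (one_pos : (0:ℝ) < 1))
  obtain ⟨ε, hε1, hε2⟩ := h1.exists
  filter_upwards [G_close hr hg hε2.1, self_mem_nhdsWithin] with g' hclose hG'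
  refine lt_of_lt_of_le hε1 ?_
  have hp1 : 0 < 1 + ε := by linarith [hε2.1]
  have hp2 : 0 < 1 - ε := by linarith [hε2.2]
  apply J_ge hN (inv_pos.2 hp1) (inv_pos.2 hp2)
  · intro x hx
    have hx : g x < 1 := hx
    change g' ((1 + ε)⁻¹ • x) < 1
    rw [hG'.2.1, abs_of_pos (inv_pos.2 hp1), inv_mul_lt_iff₀ hp1]
    have := (hclose x).2
    nlinarith
  · intro x hx
    have hx : g' x < 1 := hx
    change g ((1 - ε)⁻¹⁻¹ • x) < 1
    rw [inv_inv, hg.2.1, abs_of_pos hp2]
    exact (hclose x).1.trans_lt hx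

/-- Normalisation. -/
theorem normalise (hN : 0 < N) {Ω : Set (X N)} {K : Set (X N)} (hK : IsAniso K) :
    ∃ K' : Set (X N), IsAniso K' ∧ K' ⊆ closedBall 0 1 ∧ (∃ y ∈ K', 1 / 2 ≤ ‖y‖) ∧
      J Ω K' ≤ J Ω K := by
  have h0 := zero_mem hK
  obtain ⟨hne, hop, hbd, hcv, hsym⟩ := hK
  obtain ⟨C, hC⟩ := hbd.exists_norm_le
  have hbdd : BddAbove (norm '' K) := ⟨C, by rintro _ ⟨x, hx, rfl⟩; exact hC x hx⟩
  set R := sSup (norm '' K) with hR
  have hle : ∀ x ∈ K, ‖x‖ ≤ R := fun x hx => le_csSup hbdd ⟨x, hx, rfl⟩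
  -- R is positive
  have hRpos : 0 < R := by
    obtain ⟨δ, hδ, hball⟩ := Metric.isOpen_iff.1 hop 0 h0
    set e : X N := EuclideanSpace.single ⟨0, hN⟩ (δ / 2) with he
    have hen : ‖e‖ = δ / 2 := by
      rw [he, PiLp.norm_single, Real.norm_eq_abs, abs_of_pos (by positivity)]
    have hmem : e ∈ K := hball (by rw [mem_ball, dist_zero_right, hen]; linarith)
    have := hle e hmem
    linarith
  obtain ⟨y, hy, hy2⟩ : ∃ y ∈ K, R / 2 ≤ ‖y‖ := by
    obtain ⟨_, ⟨y, hy, rfl⟩, hlt⟩ := exists_lt_of_lt_csSup (hne.image norm)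
      (by linarith : R / 2 < sSup (norm '' K))
    exact ⟨y, hy, hlt.le⟩
  set K' : Set (X N) := {x | R • x ∈ K} with hK'
  have hmemK' : ∀ x, x ∈ K' ↔ R • x ∈ K := fun x => Iff.rfl
  refine ⟨K', ⟨⟨0, by rw [hmemK', smul_zero]; exact h0⟩, ?_, ?_, ?_, ?_⟩, ?_, ?_, ?_⟩
  · exact hop.preimage (continuous_const_smul R)
  · apply (isBounded_closedBall (x := (0 : X N)) (r := 1)).subset
    intro x hx
    have := hle _ ((hmemK' x).1 hx)
    rw [norm_smul, Real.norm_eq_abs, abs_of_pos hRpos] at this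
    rw [mem_closedBall, dist_zero_right]
    by_contra hcon
    push Not at hcon
    nlinarith
  · intro a ha b hb s t hs ht hst
    rw [hmemK'] at ha hb ⊢
    have := hcv ha hb hs ht hst
    rwa [smul_comm s R a, smul_comm t R b, ← smul_add] at this
  · intro x hx
    rw [hmemK'] at hx ⊢
    rw [smul_neg]
    exact hsym _ hx
  · intro x hx
    have := hle _ ((hmemK' x).1 hx)
    rw [norm_smul, Real.norm_eq_abs, abs_of_pos hRpos] at this
    rw [mem_closedBall, dist_zero_right]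
    by_contra hcon
    push Not at hcon
    nlinarith
  · refine ⟨R⁻¹ • y, ?_, ?_⟩
    · rw [hmemK', smul_smul, mul_inv_cancel₀ hRpos.ne', one_smul]; exact hy
    · rw [norm_smul, norm_inv, Real.norm_eq_abs, abs_of_pos hRpos, inv_mul_eq_div,
        le_div_iff₀ hRpos]
      linarith
  · have := J_ge (Ω := Ω) hN (K := K') (K' := K) hRpos hRpos (fun x hx => hx) (by
      intro x hx
      rw [hmemK', smul_smul, mul_inv_cancel₀ hRpos.ne', one_smul]; exact hx)
    rwa [div_self hRpos.ne', ENNReal.ofReal_one, one_mul] at this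

theorem gauge_mem {r : ℝ} (hr : 0 < r) {K : Set (X N)} (hK : IsAniso K)
    (hK1 : K ⊆ closedBall 0 1) (hKr : ball 0 r ⊆ K) : gauge K ∈ Gset N r := by
  have h0 := zero_mem hK
  obtain ⟨hne, hop, hbd, hcv, hsym⟩ := hK
  have habs : Absorbent ℝ K := absorbent_nhds_zero (hop.mem_nhds h0)
  refine ⟨fun x y => gauge_add_le hcv habs x y, ?_, ?_⟩
  · intro t x
    rcases le_total 0 t with ht | ht
    · rw [gauge_smul_of_nonneg ht, smul_eq_mul, abs_of_nonneg ht]
    · have : t • x = -((-t) • x) := by rw [neg_smul, neg_neg]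
      rw [this, gauge_neg hsym, gauge_smul_of_nonneg (by linarith), smul_eq_mul,
        abs_of_nonpos ht]
  · intro x
    constructor
    · have := le_gauge_of_subset_closedBall (x := x) habs zero_le_one hK1
      rwa [div_one] at this
    · have := mul_gauge_le_norm (x := x) hKr
      rw [le_div_iff₀ hr]
      linarith

/-- **MP_302605_an, Q1**: yes.  For every `N ≥ 1` and every bounded `Ω ⊆ ℝ^N` (in particular for
every open bounded convex `Ω`, `N ≥ 3`) the functional `J_Ω` has a minimizer in `𝒦_N`. -/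
theorem result (N : ℕ) (hN : 0 < N) (Ω : Set (X N)) (hΩ : Bornology.IsBounded Ω) :
    ∃ K₀ : Set (X N), IsAniso K₀ ∧ ∀ K : Set (X N), IsAniso K → J Ω K₀ ≤ J Ω K := by
  by_cases hall : ∀ K : Set (X N), IsAniso K → J Ω K = ⊤
  · have hB : IsAniso (ball (0 : X N) 1) := by
      refine ⟨⟨0, mem_ball_self one_pos⟩, isOpen_ball, isBounded_ball, convex_ball _ _, ?_⟩
      intro x hx
      rw [mem_ball, dist_zero_right] at hx ⊢
      rwa [norm_neg]
    exact ⟨_, hB, fun K hK => by rw [hall K hK]; exact le_top⟩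
  · push Not at hall
    obtain ⟨K₁, hK₁, hfin⟩ := hall
    obtain ⟨D, hD⟩ := hΩ.subset_ball (0 : X N)
    obtain ⟨D', hD'0, hD'⟩ : ∃ D' : ℝ, 0 < D' ∧ Ω ⊆ ball 0 D' :=
      ⟨max D 1, lt_max_of_lt_right one_pos, hD.trans (ball_subset_ball (le_max_left _ _))⟩
    obtain ⟨r, hr0, hr1, hr⟩ := coercive hN hD'0 hD' hfin
    -- every K with small J gives an element of the compact set
    have key : ∀ K : Set (X N), IsAniso K → J Ω K ≤ J Ω K₁ →
        ∃ g ∈ Gset N r, J Ω {x | g x < 1} ≤ J Ω K := by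
      intro K hK hJ
      obtain ⟨K', hK', h1, h2, h3⟩ := normalise (Ω := Ω) hN hK
      have h4 := hr K' hK' h1 h2 (h3.trans hJ)
      refine ⟨gauge K', gauge_mem hr0 hK' h1 h4, ?_⟩
      rw [setOfPred_gauge_lt_one_eq_self_of_isOpen hK'.2.2.2.1 (zero_mem hK') hK'.2.1]
      exact h3
    obtain ⟨g₁, hg₁, hJ₁⟩ := key K₁ hK₁ (le_refl _)
    obtain ⟨g₀, hg₀, hmin⟩ := LowerSemicontinuousOn.exists_isMinOn ⟨g₁, hg₁⟩ (Gset_compact r)
      (lsc hN Ω hr0)
    refine ⟨{x | g₀ x < 1}, G_aniso hr0 hg₀, ?_⟩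
    intro K hK
    rcases le_total (J Ω K) (J Ω K₁) with h | h
    · obtain ⟨g, hg, hJ⟩ := key K hK h
      exact (hmin hg).trans hJ
    · exact ((hmin hg₁).trans hJ₁).trans h

end Pool.Agent.Results.MP_302605_an.MinimizersExist
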